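import Pool.Agent.Lib.MP_c7af3c_ag.FANO.H54.Rest

/-!
# MP_c7af3c_ag, project FANO: module LIDLR
-/

set_option autoImplicit false
set_option linter.unusedSectionVars false

namespace Pool.Agent.Fano.H57

open MvPolynomial Pool.Agent.Gen Pool.Agent.Sharp Pool.Agent.Fano

section

variable {L : Type} [Field L] [CharZero L] {n r : ℕ} (x : Fin r → Fin (n + 1) → L)
  (J : Fin r → Fin (n + 1))

/-- the inverse matrix of the minor -/
noncomputable def wJ (b a : Fin r) : L :=
  (Matrix.of fun a b => x a (J b)).adjugate b a / pl x J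

theorem wJ_k (b : Fin r) (k : Fin (n + 1)) :
    ∑ a, wJ x J b a * x a k = pl x (Function.update J b k) / pl x J := by
  have h1 : ∑ a, (Matrix.of fun a b => x a (J b)).adjugate b a * x a k =
      pl x (Function.update J b k) := by
    rw [H54.pl_update, ← Matrix.cramer_apply, Matrix.cramer_eq_adjugate_mulVec]
    rfl
  rw [← h1, Finset.sum_div]
  refine Finset.sum_congr rfl fun a _ => ?_
  unfold wJ
  ring

theorem x_wJ (h : pl x J ≠ 0) (a a' : Fin r) :
    ∑ b, x a' (J b) * wJ x J b a = if a' = a then 1 else 0 := by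
  have h1 := congrFun (congrFun (Matrix.mul_adjugate (Matrix.of fun a b => x a (J b))) a') a
  rw [Matrix.mul_apply, Matrix.smul_apply, Matrix.one_apply] at h1
  have h2 : ∑ b, x a' (J b) * wJ x J b a =
      (∑ b, (Matrix.of fun a b => x a (J b)) a' b *
        (Matrix.of fun a b => x a (J b)).adjugate b a) / pl x J := by
    rw [Finset.sum_div]
    refine Finset.sum_congr rfl fun b _ => ?_
    unfold wJ
    rw [Matrix.of_apply]
    ring
  rw [h2, h1]
  split_ifs
  · rw [smul_eq_mul, mul_one]
    exact div_self h
  · rw [smul_zero, zero_div]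

/-- the change of variables -/
noncomputable def sig : MvPolynomial (Fin r) L →ₐ[L] MvPolynomial (Fin r) L :=
  aeval fun a => ∑ b, C (wJ x J b a) * X b

theorem sig_X (a : Fin r) : sig x J (X a) = ∑ b, C (wJ x J b a) * X b := aeval_X _ _

theorem sig_C (a : L) : sig x J (C a) = C a := (sig x J).commutes a

theorem rest_C (a : L) : restP x (C a) = C a := (restP x).commutes a

theorem sig_hom {F : MvPolynomial (Fin r) L} {e : ℕ} (hF : F.IsHomogeneous e) :
    (sig x J F).IsHomogeneous e := by
  have h := hF.aeval (fun a => ∑ b, C (wJ x J b a) * X b) (n := 1) fun a =>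
    IsHomogeneous.sum _ _ _ fun b _ => by
      simpa using (isHomogeneous_C (Fin r) (wJ x J b a)).mul (isHomogeneous_X L b)
  rwa [one_mul] at h

/-- the projection to forms in the chosen variables -/
noncomputable def psi : MvPolynomial (Fin (n + 1)) L →ₐ[L] MvPolynomial (Fin (n + 1)) L :=
  (rename J).comp ((sig x J).comp (restP x))

theorem psi_apply (F : MvPolynomial (Fin (n + 1)) L) :
    psi x J F = rename J (sig x J (restP x F)) := rfl

theorem psi_X (k : Fin (n + 1)) :
    psi x J (X k) = ∑ b, C (pl x (Function.update J b k) / pl x J) * X (J b) := by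
  rw [psi_apply, H54.restP_X, map_sum, map_sum]
  have h1 : ∀ a, rename J (sig x J (C (x a k) * X a)) =
      ∑ b, C (wJ x J b a * x a k) * X (J b) := by
    intro a
    rw [map_mul, sig_C, sig_X, map_mul, rename_C, map_sum, Finset.mul_sum]
    refine Finset.sum_congr rfl fun b _ => ?_
    rw [map_mul, rename_C, rename_X, C_mul]
    ring
  rw [Finset.sum_congr rfl fun a _ => h1 a, Finset.sum_comm]
  refine Finset.sum_congr rfl fun b _ => ?_
  rw [← Finset.sum_mul, ← map_sum, wJ_k]

theorem rest_psi (h : pl x J ≠ 0) (F : MvPolynomial (Fin (n + 1)) L) :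
    restP x (psi x J F) = restP x F := by
  have h1 : (restP x).comp ((rename J).comp (sig x J)) = AlgHom.id L _ := by
    apply MvPolynomial.algHom_ext
    intro a
    rw [AlgHom.comp_apply, AlgHom.comp_apply, sig_X, map_sum, map_sum, AlgHom.id_apply]
    have h2 : ∀ b, restP x (rename J (C (wJ x J b a) * X b)) =
        ∑ a', C (x a' (J b) * wJ x J b a) * X a' := by
      intro b
      rw [map_mul, rename_C, rename_X, map_mul, rest_C, H54.restP_X, Finset.mul_sum]
      refine Finset.sum_congr rfl fun a' _ => ?_
      rw [C_mul]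
      ring
    rw [Finset.sum_congr rfl fun b _ => h2 b, Finset.sum_comm]
    have h3 : ∀ a', ∑ b, (C (x a' (J b) * wJ x J b a) * X a' : MvPolynomial (Fin r) L) =
        if a' = a then X a' else 0 := by
      intro a'
      rw [← Finset.sum_mul, ← map_sum, x_wJ x J h]
      split_ifs <;> simp
    rw [Finset.sum_congr rfl fun a' _ => h3 a', Finset.sum_ite_eq' Finset.univ a]
    simp
  rw [psi_apply]
  exact congrArg (fun f => f (restP x F)) (congrArg DFunLike.coe h1)

theorem X_sub_psi (h : pl x J ≠ 0) (k : Fin (n + 1)) :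
    X k - psi x J (X k) = C (pl x J)⁻¹ * hJ x J k := by
  rw [psi_X]
  unfold hJ
  rw [mul_sub, ← mul_assoc, ← C_mul, inv_mul_cancel₀ h, C_1, one_mul, Finset.mul_sum]
  congr 1
  refine Finset.sum_congr rfl fun b _ => ?_
  rw [← mul_assoc, ← C_mul, div_eq_inv_mul]

/-- the span of the multiples of the forms `hJ` -/
noncomputable def NJ (e : ℕ) : Submodule L (MvPolynomial (Fin (n + 1)) L) :=
  Submodule.span L {P | ∃ J k, ∃ I : Fin (n + 1) →₀ ℕ, I.degree + 1 = e ∧
      P = hJ x J k * monomial I 1}

theorem NJ_mulX {e : ℕ} {P : MvPolynomial (Fin (n + 1)) L} (hP : P ∈ NJ x e)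
    (j : Fin (n + 1)) : X j * P ∈ NJ x (e + 1) := by
  classical
  unfold NJ at hP ⊢
  induction hP using Submodule.span_induction with
  | mem P h =>
    obtain ⟨J', k, I, hI, rfl⟩ := h
    refine Submodule.subset_span ⟨J', k, I + Finsupp.single j 1, ?_, ?_⟩
    · rw [map_add, Finsupp.degree_single]
      omega
    · have : (monomial (I + Finsupp.single j 1) 1 : MvPolynomial (Fin (n + 1)) L) =
          monomial I 1 * X j := by
        rw [X, monomial_mul, mul_one]
      rw [this]
      ring
  | zero => rw [mul_zero]; exact Submodule.zero_mem _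
  | add P Q _ _ hP hQ => rw [mul_add]; exact Submodule.add_mem _ hP hQ
  | smul a P _ hP => rw [mul_smul_comm]; exact Submodule.smul_mem _ a hP

theorem monomial_sub_psi (h : pl x J ≠ 0) (e : ℕ) : ∀ I : Fin (n + 1) →₀ ℕ,
    I.degree = e → monomial I 1 - psi x J (monomial I 1) ∈ NJ x e := by
  classical
  induction e with
  | zero =>
    intro I hI
    rw [Finsupp.degree_eq_zero_iff] at hI
    subst hI
    have : (monomial 0 1 : MvPolynomial (Fin (n + 1)) L) = 1 := rfl
    rw [this, map_one, sub_self]
    exact Submodule.zero_mem _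
  | succ e ih =>
    intro I hI
    obtain ⟨k, hk⟩ : ∃ k, I k ≠ 0 := by
      by_contra hc
      push Not at hc
      have : I = 0 := Finsupp.ext hc
      rw [this] at hI
      simp at hI
    have hI' : I = Finsupp.single k 1 + (I - Finsupp.single k 1) := by
      rw [add_tsub_cancel_of_le]
      rw [Finsupp.single_le_iff]
      omega
    set K := I - Finsupp.single k 1 with hK
    have hKe : K.degree = e := by
      rw [hI', map_add, Finsupp.degree_single] at hI
      omega
    have e1 : (monomial I 1 : MvPolynomial (Fin (n + 1)) L) = X k * monomial K 1 := by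
      rw [hI', X, monomial_mul, mul_one]
    have h1 := ih K hKe
    rw [e1, map_mul]
    have e2 : X k * monomial K 1 - psi x J (X k) * psi x J (monomial K 1) =
        (pl x J)⁻¹ • (hJ x J k * monomial K 1) +
        ∑ b, (pl x (Function.update J b k) / pl x J) •
          (X (J b) * (monomial K 1 - psi x J (monomial K 1))) := by
      have e3 := X_sub_psi x J h k
      have e4 : ∑ b, (pl x (Function.update J b k) / pl x J) •
          (X (J b) * (monomial K 1 - psi x J (monomial K 1))) =
          psi x J (X k) * (monomial K 1 - psi x J (monomial K 1)) := by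
        rw [psi_X, Finset.sum_mul]
        refine Finset.sum_congr rfl fun b _ => ?_
        rw [smul_eq_C_mul]
        ring
      rw [e4, smul_eq_C_mul]
      linear_combination (monomial K 1 : MvPolynomial (Fin (n + 1)) L) * e3
    rw [e2]
    refine Submodule.add_mem _ (Submodule.smul_mem _ _ (Submodule.subset_span
      ⟨J, k, K, by omega, rfl⟩)) (Submodule.sum_mem _ fun b _ => Submodule.smul_mem _ _ ?_)
    exact NJ_mulX x h1 (J b)

theorem sub_psi (h : pl x J ≠ 0) {e : ℕ} {G : MvPolynomial (Fin (n + 1)) L}
    (hG : G.IsHomogeneous e) : G - psi x J G ∈ NJ x e := by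
  classical
  have h1 : G = ∑ I ∈ G.support, coeff I G • monomial I 1 := by
    conv_lhs => rw [G.as_sum]
    refine Finset.sum_congr rfl fun I _ => ?_
    rw [smul_monomial, smul_eq_mul, mul_one]
  have h2 : G - psi x J G =
      ∑ I ∈ G.support, coeff I G • (monomial I 1 - psi x J (monomial I 1)) := by
    conv_lhs => rw [h1]
    rw [map_sum, ← Finset.sum_sub_distrib]
    refine Finset.sum_congr rfl fun I _ => ?_
    rw [map_smul, smul_sub]
  rw [h2]
  refine Submodule.sum_mem _ fun I hI =>
    Submodule.smul_mem _ _ (monomial_sub_psi x J h e I ?_)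
  have := hG (mem_support_iff.1 hI)
  rwa [Finsupp.degree_eq_weight_one]

end

/-- Module LIDLR. -/
theorem lidlr : LidlrStatement := by
  intro L _ _ n r e x hx G hG h0
  obtain ⟨J, h⟩ := H54.exists_pl x hx
  have h1 := sub_psi x J h hG
  rwa [psi_apply, h0, map_zero, map_zero, sub_zero] at h1

end Pool.Agent.Fano.H57
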