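import Pool.Agent.Lib.MP_c7af3c_ag.FANO.Iface
import Pool.Agent.Lib.MP_c7af3c_ag.SHARP.H26.Pair

/-!
# MP_c7af3c_ag, project FANO: module PHIR
-/

set_option autoImplicit false
set_option linter.unusedSectionVars false

namespace Pool.Agent.Fano.H57

open MvPolynomial Pool.Agent.Gen Pool.Agent.Sharp Pool.Agent.Fano

section rest

variable {L : Type} [Field L] {n r : ℕ} (x : Fin r → Fin (n + 1) → L)

theorem restP_X (p : Fin (n + 1)) : restP x (X p) = ∑ a, C (x a p) * X a := by
  unfold restP
  exact aeval_X _ _

theorem restP_C (a : L) : restP x (C a) = C a := (restP x).commutes a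

/-- the point of the plane with the coordinates `t` -/
def pt (t : Fin r → L) : Fin (n + 1) → L := fun p => ∑ a, t a * x a p

theorem restP_eval (F : MvPolynomial (Fin (n + 1)) L) (t : Fin r → L) :
    eval t (restP x F) = eval (pt x t) F := by
  have h : (eval t).comp (restP x).toRingHom = eval (pt x t) := by
    apply MvPolynomial.ringHom_ext
    · intro a
      change eval t (restP x (C a)) = _
      rw [restP_C, eval_C, eval_C]
    · intro p
      change eval t (restP x (X p)) = _
      rw [restP_X, map_sum, eval_X]
      unfold pt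
      refine Finset.sum_congr rfl fun a _ => ?_
      rw [map_mul, eval_C, eval_X, mul_comm]
  exact congrArg (fun f => f F) (congrArg DFunLike.coe h)

theorem restP_pderiv (F : MvPolynomial (Fin (n + 1)) L) (b : Fin r) :
    pderiv b (restP x F) = ∑ p, restP x (pderiv p F) * C (x b p) := by
  classical
  induction F using MvPolynomial.induction_on with
  | C a => simp
  | add p q hp hq =>
    rw [map_add, map_add, hp, hq, ← Finset.sum_add_distrib]
    refine Finset.sum_congr rfl fun s _ => ?_
    rw [map_add, map_add, add_mul]
  | mul_X f i hf =>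
    have h1 : pderiv b (restP x (X i)) = C (x b i) := by
      rw [restP_X, map_sum, Finset.sum_eq_single b]
      · rw [pderiv_C_mul, pderiv_X_self, mul_one]
      · intro a _ ha
        rw [pderiv_C_mul, pderiv_X_of_ne ha, mul_zero]
      · intro h; exact absurd (Finset.mem_univ _) h
    rw [map_mul, Derivation.leibniz, h1, hf, smul_eq_mul, smul_eq_mul]
    have h2 : ∀ q, restP x (pderiv q (f * X i)) * C (x b q) =
        restP x (X i) * (restP x (pderiv q f) * C (x b q)) +
          (if q = i then restP x f * C (x b i) else 0) := by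
      intro q
      rw [Derivation.leibniz]
      simp only [smul_eq_mul]
      rw [map_add, map_mul, map_mul]
      by_cases h : q = i
      · subst h
        rw [pderiv_X_self, map_one, if_pos rfl]
        ring
      · rw [if_neg h, pderiv_X_of_ne (Ne.symm h), map_zero]
        ring
    simp only [h2]
    rw [Finset.sum_add_distrib, ← Finset.mul_sum, Finset.sum_ite_eq' Finset.univ i]
    simp only [Finset.mem_univ, if_true]
    ring

theorem restP_hom {F : MvPolynomial (Fin (n + 1)) L} {e : ℕ} (hF : F.IsHomogeneous e) :
    (restP x F).IsHomogeneous e := by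
  have h := hF.aeval (fun p => ∑ a, C (x a p) * X a) (n := 1) fun p =>
    IsHomogeneous.sum _ _ _ fun a _ => by
      simpa using (isHomogeneous_C (Fin r) (x a p)).mul (isHomogeneous_X L a)
  rwa [one_mul] at h

/-- polynomials which agree at all natural points are equal -/
theorem ext_nat [CharZero L] {P Q : MvPolynomial (Fin r) L}
    (h : ∀ k : Fin r → ℕ, eval (fun a => (k a : L)) P = eval (fun a => (k a : L)) Q) : P = Q := by
  refine funext_set (fun _ => Set.range fun k : ℕ => (k : L))
    (fun _ => Set.infinite_range_of_injective Nat.cast_injective) fun t ht => ?_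
  have h1 : ∀ a, ∃ k : ℕ, (k : L) = t a := fun a => ht a (Set.mem_univ a)
  choose k hk using h1
  have h2 := h k
  simp only [hk] at h2
  exact h2

end rest

section phi

variable {L : Type} [Field L] {n c r : ℕ} {d : Fin c → ℕ} (D : DSys L n c d)
  (x : Fin r → Fin (n + 1) → L)

/-- the differential of the restriction -/
noncomputable def Phi : (Fin r × Fin (n + 1) → L) →ₗ[L] (Fin c → MvPolynomial (Fin r) L) where
  toFun u m := ∑ p, restP x (pderiv p (D.F m)) * ∑ a, C (u (a, p)) * X a
  map_add' u v := by
    funext m
    simp only [Pi.add_apply, C_add, add_mul, Finset.sum_add_distrib, mul_add]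
  map_smul' t u := by
    funext m
    simp only [Pi.smul_apply, smul_eq_mul, C_mul, RingHom.id_apply, smul_eq_C_mul,
      Finset.mul_sum]
    refine Finset.sum_congr rfl fun p _ => Finset.sum_congr rfl fun a _ => by ring

theorem Phi_apply (u : Fin r × Fin (n + 1) → L) (m : Fin c) :
    Phi D x u m = ∑ p, restP x (pderiv p (D.F m)) * ∑ a, C (u (a, p)) * X a := rfl

theorem VT_pt (G : Fin c → MvPolynomial (Fin (n + 1)) L) (k : Fin r → ℕ) (p : Fin (n + 1)) :
    VT D (pt x fun a => (k a : L)) G p = ∑ a, (k a : L) * VT D (x a) G p := by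
  have h1 : ∀ y, VT D y G p = ∑ m, ∑ I ∈ (G m).support, coeff I (G m) * D.del m I (y p) := by
    intro y
    rw [VT_apply, Finset.sum_apply]
    exact Finset.sum_congr rfl fun m _ => D.V_apply y m (G m) p
  rw [h1]
  simp only [h1, Finset.mul_sum]
  rw [Finset.sum_comm]
  refine Finset.sum_congr rfl fun m _ => ?_
  rw [Finset.sum_comm]
  refine Finset.sum_congr rfl fun I _ => ?_
  have e1 : D.del m I (pt x (fun a => (k a : L)) p) = ∑ a, (k a : L) * D.del m I (x a p) := by
    unfold pt
    rw [map_sum]
    refine Finset.sum_congr rfl fun a _ => ?_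
    rw [← nsmul_eq_mul, map_nsmul, nsmul_eq_mul]
  rw [e1, Finset.mul_sum]
  exact Finset.sum_congr rfl fun a _ => by ring

theorem Phi_VV [CharZero L] (h0 : OnP x D.F) {G : Fin c → MvPolynomial (Fin (n + 1)) L}
    (hG : Hom d G) : Phi D x (VV D x G) = fun m => - restP x (G m) := by
  funext m
  apply ext_nat
  intro k
  have hz : ∀ m, eval (pt x fun a => (k a : L)) (D.F m) = 0 := by
    intro m
    rw [← restP_eval, h0 m, map_zero]
  have hr := grad_VT D (pt x fun a => (k a : L)) hz G hG m
  rw [map_neg, restP_eval, ← hr, Phi_apply, map_sum]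
  refine Finset.sum_congr rfl fun p _ => ?_
  rw [map_mul, restP_eval, VT_pt, map_sum]
  congr 1
  refine Finset.sum_congr rfl fun a _ => ?_
  rw [map_mul, eval_C, eval_X, mul_comm]
  rfl

theorem Phi_PP (h0 : OnP x D.F) (ab : Fin r × Fin r) : Phi D x (PP x ab) = 0 := by
  funext m
  rw [Phi_apply]
  have h1 : ∀ p, (∑ a, C (PP x ab (a, p)) * X a : MvPolynomial (Fin r) L) =
      C (x ab.2 p) * X ab.1 := by
    intro p
    unfold PP
    rw [Finset.sum_eq_single ab.1]
    · simp
    · intro a _ ha
      simp [ha]
    · intro h; exact absurd (Finset.mem_univ _) h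
  simp only [h1, ← mul_assoc]
  rw [← Finset.sum_mul, ← restP_pderiv, h0 m, map_zero, zero_mul]
  rfl

theorem WW_eq (p q : Fin (n + 1)) : WW D x p q =
    (fun s => x s.1 q * (Pi.single p 1 : Fin (n + 1) → L) s.2) +
      VV D x (fun m => X q * pderiv p (D.F m)) := by
  funext s
  rfl

theorem Phi_WW [CharZero L] (h0 : OnP x D.F) (p q : Fin (n + 1)) :
    Phi D x (WW D x p q) = 0 := by
  rw [WW_eq, map_add, Phi_VV D x h0 (fun m => hom_XF' D m p q)]
  funext m
  rw [Pi.add_apply, Phi_apply, map_mul, restP_X]
  have h1 : ∀ p', (∑ a, C (x a q * (Pi.single p 1 : Fin (n + 1) → L) p') * X a :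
      MvPolynomial (Fin r) L) = if p' = p then ∑ a, C (x a q) * X a else 0 := by
    intro p'
    split_ifs with h
    · subst h
      simp
    · simp [Pi.single_eq_of_ne h]
  simp only [h1]
  rw [Finset.sum_eq_single p]
  · rw [if_pos rfl, Pi.zero_apply]
    ring
  · intro b _ hb
    rw [if_neg hb, mul_zero]
  · intro h; exact absurd (Finset.mem_univ _) h

theorem SL_le [CharZero L] (h0 : OnP x D.F) : SL D x ≤ LinearMap.ker (Phi D x) := by
  unfold SL
  rw [Submodule.span_le]
  rintro u ((⟨ab, rfl⟩ | ⟨p, q, rfl⟩) | ⟨G, hG, hG0, rfl⟩)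
  · exact Phi_PP D x h0 ab
  · exact Phi_WW D x h0 p q
  · show Phi D x (VV D x G) = 0
    rw [Phi_VV D x h0 hG]
    funext m
    rw [hG0 m, neg_zero]
    rfl

variable {x}

/-- dual linear forms -/
theorem exists_dual (hx : LinearIndependent L x) : ∃ w : Fin r → Fin (n + 1) → L,
    ∀ i a, ∑ p, x a p * w i p = if a = i then 1 else 0 := by
  classical
  obtain ⟨g, hg⟩ := (Fintype.linearCombination L x).exists_leftInverse_of_injective
    (LinearMap.ker_eq_bot.2 (linearIndependent_iff_injective_fintypeLinearCombination.1 hx))
  refine ⟨fun i p => g (Pi.single p 1) i, fun i a => ?_⟩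
  have h1 : g (x a) = Pi.single a 1 := by
    have h2 := congrArg (fun f => f (Pi.single a 1)) hg
    simp only [LinearMap.comp_apply, LinearMap.id_apply,
      Fintype.linearCombination_apply_single, one_smul] at h2
    exact h2
  have h3 : x a = ∑ p, x a p • (Pi.single p 1 : Fin (n + 1) → L) := by
    funext q
    rw [Finset.sum_apply]
    simp [Pi.single_apply]
  have h4 := congrFun h1 i
  rw [h3, map_sum, Finset.sum_apply] at h4
  simp only [map_smul, Pi.smul_apply, smul_eq_mul] at h4
  rw [h4, Pi.single_apply]
  simp only [eq_comm]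

/-- every monomial is the restriction of a form -/
theorem exists_form (hx : LinearIndependent L x) (α : Fin r →₀ ℕ) :
    ∃ G : MvPolynomial (Fin (n + 1)) L, G.IsHomogeneous α.degree ∧
      restP x G = monomial α 1 := by
  classical
  obtain ⟨w, hw⟩ := exists_dual hx
  refine ⟨∏ i, (∑ p, C (w i p) * X p) ^ α i, ?_, ?_⟩
  · rw [Finsupp.degree_eq_sum]
    refine IsHomogeneous.prod _ _ _ fun i _ => ?_
    have h1 : (∑ p, C (w i p) * X p : MvPolynomial (Fin (n + 1)) L).IsHomogeneous 1 :=
      IsHomogeneous.sum _ _ _ fun p _ => by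
        simpa using (isHomogeneous_C (Fin (n + 1)) (w i p)).mul (isHomogeneous_X L p)
    simpa using h1.pow (α i)
  · rw [map_prod]
    have h1 : ∀ i, restP x (∑ p, C (w i p) * X p) = X i := by
      intro i
      rw [map_sum]
      simp only [map_mul, restP_C, restP_X, Finset.mul_sum]
      rw [Finset.sum_comm]
      have h2 : ∀ a, ∑ p, (C (w i p) * (C (x a p) * X a) : MvPolynomial (Fin r) L) =
          if a = i then X a else 0 := by
        intro a
        have h3 : ∀ p, (C (w i p) * (C (x a p) * X a) : MvPolynomial (Fin r) L) =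
            C (x a p * w i p) * X a := by
          intro p
          rw [C_mul]
          ring
        simp only [h3]
        rw [← Finset.sum_mul, ← map_sum, hw]
        split_ifs <;> simp
      simp only [h2]
      simp
    simp only [map_pow, h1]
    rw [monomial_eq, C_1, one_mul, Finsupp.prod_fintype]
    intro i
    exact pow_zero _

theorem range_ge [CharZero L] (hx : LinearIndependent L x) (h0 : OnP x D.F) :
    dimH r d ≤ Module.finrank L (LinearMap.range (Phi D x)) := by
  classical
  choose G hG using fun q : Hix r d => exists_form hx q.2.1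
  let b : Hix r d → (Fin c → MvPolynomial (Fin r) L) := fun q =>
    fun m' => if m' = q.1 then - monomial q.2.1 1 else 0
  have hb : ∀ q, b q ∈ LinearMap.range (Phi D x) := by
    intro q
    refine ⟨VV D x (one1 q.1 (G q)), ?_⟩
    rw [Phi_VV D x h0]
    · funext m'
      unfold one1
      simp only [b]
      split_ifs with h
      · rw [(hG q).2]
      · rw [map_zero, neg_zero]
    · intro m'
      unfold one1
      split_ifs with h
      · subst h
        have := (hG q).1
        rwa [q.2.2] at this
      · exact isHomogeneous_zero _ _ _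
  have hli : LinearIndependent L b := by
    rw [Fintype.linearIndependent_iff]
    rintro g hg ⟨m, α⟩
    have h1 := congrFun hg m
    rw [Finset.sum_apply] at h1
    have h2 := congrArg (fun P => coeff α.1 P) h1
    simp only [Pi.smul_apply, coeff_sum, coeff_smul, Pi.zero_apply, coeff_zero] at h2
    rw [Finset.sum_eq_single ⟨m, α⟩] at h2
    · simpa [b] using h2
    · rintro ⟨m', α'⟩ _ hne
      simp only [b]
      by_cases hm : m = m'
      · subst hm
        have hk : α'.1 ≠ α.1 := by
          intro h
          apply hne
          have : α' = α := Subtype.ext h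
          rw [this]
        simp [coeff_monomial, hk]
      · simp [hm]
    · intro h
      exact absurd (Finset.mem_univ _) h
  have hli' : LinearIndependent L (fun i =>
      (⟨b i, hb i⟩ : LinearMap.range (Phi D x))) :=
    LinearIndependent.of_comp (LinearMap.range (Phi D x)).subtype hli
  have := hli'.fintype_card_le_finrank
  rw [Fintype.card_sigma] at this
  exact this

end phi

/-- Module PHIR. -/
theorem phir : PhirStatement := by
  intro L _ _ n c r d D x hx h0
  have h1 := range_ge D hx h0
  have h2 := LinearMap.finrank_range_add_finrank_ker (Phi D x)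
  have h3 : Module.finrank L (Fin r × Fin (n + 1) → L) = r * (n + 1) := by
    rw [Module.finrank_fintype_fun_eq_card, Fintype.card_prod, Fintype.card_fin, Fintype.card_fin]
  have h4 := Submodule.finrank_mono (SL_le D x h0)
  rw [h3] at h2
  omega

end Pool.Agent.Fano.H57
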