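import Pool.Agent.Lib.MP_c7af3c_ag.FANO.H57.Lidlr
import Pool.Agent.Lib.MP_c7af3c_ag.FANO.H57.Phir

/-!
# MP_c7af3c_ag, project FANO: module LSURR
-/

set_option autoImplicit false
set_option linter.unusedSectionVars false

namespace Pool.Agent.Fano.H57

open MvPolynomial Pool.Agent.Gen Pool.Agent.Sharp Pool.Agent.Fano

section

variable {L : Type} [Field L] [CharZero L] {n c r : ℕ} {d : Fin c → ℕ} (D : DSys L n c d)
  (x : Fin r → Fin (n + 1) → L) (J : Fin r → Fin (n + 1))

/-- `VV` as a linear map -/
noncomputable def VVl : (Fin c → MvPolynomial (Fin (n + 1)) L) →ₗ[L]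
    (Fin r × Fin (n + 1) → L) where
  toFun := VV D x
  map_add' G G' := by
    funext s
    unfold VV
    rw [map_add]
    rfl
  map_smul' a G := by
    funext s
    unfold VV
    rw [map_smul]
    rfl

theorem VVl_apply (G : Fin c → MvPolynomial (Fin (n + 1)) L) : VVl D x G = VV D x G := rfl

/-- a form of degree `e` in the chosen variables is a combination of the monomials -/
theorem rename_form {e : ℕ} {Q : MvPolynomial (Fin r) L} (hQ : Q.IsHomogeneous e) :
    rename J Q = ∑ α : Mon r e, coeff α.1 Q • ∏ i, X (J i) ^ (α.1 i) := by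
  classical
  have h1 : Q = ∑ α : Mon r e, coeff α.1 Q • monomial α.1 1 := by
    ext β
    rw [coeff_sum]
    simp only [coeff_smul, coeff_monomial, smul_eq_mul, mul_ite, mul_one, mul_zero]
    by_cases hβ : β.degree = e
    · rw [Finset.sum_eq_single ⟨β, hβ⟩]
      · rw [if_pos rfl]
      · intro α _ hα
        rw [if_neg]
        intro h
        exact hα (Subtype.ext h)
      · intro h; exact absurd (Finset.mem_univ _) h
    · rw [Finset.sum_eq_zero]
      · by_contra hc
        apply hβ
        rw [Finsupp.degree_eq_weight_one]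
        exact hQ hc
      · intro α _
        rw [if_neg]
        intro h
        exact hβ (h ▸ α.2)
  conv_lhs => rw [h1]
  rw [map_sum]
  refine Finset.sum_congr rfl fun α _ => ?_
  rw [map_smul]
  congr 1
  rw [monomial_eq, C_1, one_mul, Finsupp.prod_fintype _ _ fun i => pow_zero _, map_prod]
  refine Finset.prod_congr rfl fun i _ => ?_
  rw [map_pow, rename_X]

theorem psi_hom {G : MvPolynomial (Fin (n + 1)) L} {e : ℕ} (hG : G.IsHomogeneous e) :
    (psi x J G).IsHomogeneous e := by
  rw [psi_apply]
  exact IsHomogeneous.rename_isHomogeneous (sig_hom x J (restP_hom x hG))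

theorem VV_mem (h : pl x J ≠ 0) {G : Fin c → MvPolynomial (Fin (n + 1)) L} (hG : Hom d G) :
    VV D x G ∈ SL D x ⊔ Submodule.span L (Set.range fun b => VV D x (mon d J b)) := by
  classical
  have h1 : (fun m => psi x J (G m)) = ∑ b : Hix r d,
      coeff b.2.1 (sig x J (restP x (G b.1))) • mon (L := L) d J b := by
    funext m
    rw [psi_apply, rename_form J (sig_hom x J (restP_hom x (hG m))), Finset.sum_apply,
      Fintype.sum_sigma, Finset.sum_eq_single m]
    · refine Finset.sum_congr rfl fun α _ => ?_
      rw [Pi.smul_apply]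
      unfold mon
      rw [if_pos rfl]
    · intro m' _ hm
      refine Finset.sum_eq_zero fun α _ => ?_
      rw [Pi.smul_apply]
      unfold mon
      rw [if_neg (Ne.symm hm), smul_zero]
    · intro h; exact absurd (Finset.mem_univ _) h
  have e1 : VV D x G = VV D x (G - fun m => psi x J (G m)) +
      ∑ b : Hix r d, coeff b.2.1 (sig x J (restP x (G b.1))) • VV D x (mon d J b) := by
    simp only [← VVl_apply]
    rw [map_sub, h1, map_sum]
    simp only [map_smul, sub_add_cancel]
  rw [e1]
  refine Submodule.add_mem _ (Submodule.mem_sup_left (Submodule.subset_span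
    (Or.inr ⟨_, ?_, ?_, rfl⟩))) (Submodule.mem_sup_right (Submodule.sum_mem _ fun b _ =>
      Submodule.smul_mem _ _ (Submodule.subset_span ⟨b, rfl⟩)))
  · intro m
    exact (hG m).sub (psi_hom x J (hG m))
  · intro m
    rw [Pi.sub_apply, map_sub, rest_psi x J h, sub_self]

end

/-- Module LSURR. -/
theorem lsurr : LsurrStatement := by
  classical
  intro L _ _ n c r d D x _ J h
  rw [eq_top_iff]
  set T := SL D x ⊔ Submodule.span L (Set.range fun b => VV D x (mon d J b)) with hT
  have h1 : ∀ p q, (fun s : Fin r × Fin (n + 1) =>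
      x s.1 q * (Pi.single p 1 : Fin (n + 1) → L) s.2) ∈ T := by
    intro p q
    have e1 := WW_eq D x p q
    rw [← sub_eq_iff_eq_add] at e1
    rw [← e1]
    refine Submodule.sub_mem _ (Submodule.mem_sup_left (Submodule.subset_span
      (Or.inl (Or.inr ⟨p, q, rfl⟩)))) (VV_mem D x J h fun m => hom_XF' D m p q)
  have h2 : ∀ a p, (fun s : Fin r × Fin (n + 1) =>
      (if s.1 = a then 1 else 0) * (Pi.single p 1 : Fin (n + 1) → L) s.2) ∈ T := by
    intro a p
    have e1 : (fun s : Fin r × Fin (n + 1) =>
      (if s.1 = a then 1 else 0) * (Pi.single p 1 : Fin (n + 1) → L) s.2) =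
        ∑ b, wJ x J b a • (fun s : Fin r × Fin (n + 1) =>
          x s.1 (J b) * (Pi.single p 1 : Fin (n + 1) → L) s.2) := by
      funext s
      rw [← x_wJ x J h a s.1, Finset.sum_apply, Finset.sum_mul]
      refine Finset.sum_congr rfl fun b _ => ?_
      rw [Pi.smul_apply, smul_eq_mul]
      ring
    rw [e1]
    exact Submodule.sum_mem _ fun b _ => Submodule.smul_mem _ _ (h1 p (J b))
  intro u _
  have e1 : u = ∑ s : Fin r × Fin (n + 1), u s • (fun s' : Fin r × Fin (n + 1) =>
      (if s'.1 = s.1 then 1 else 0) * (Pi.single s.2 1 : Fin (n + 1) → L) s'.2) := by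
    funext s
    rw [Finset.sum_apply, Finset.sum_eq_single s]
    · simp
    · intro s' _ hs
      rw [Pi.smul_apply, smul_eq_mul]
      by_cases h3 : s.1 = s'.1
      · have h4 : s.2 ≠ s'.2 := fun h4 => hs (Prod.ext h3.symm h4.symm)
        rw [Pi.single_eq_of_ne h4, mul_zero, mul_zero]
      · rw [if_neg h3, zero_mul, mul_zero]
    · intro h; exact absurd (Finset.mem_univ _) h
  rw [e1]
  exact Submodule.sum_mem _ fun s _ => Submodule.smul_mem _ _ (h2 s.1 s.2)

end Pool.Agent.Fano.H57
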